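import Mathlib
import Pool.Agent.N428.Ram.Num

namespace Pool.Agent.Results.MP_bf05d5_co.RamseyCayley

open Finset
open scoped Pointwise

/-- `L_n`, the least common multiple of `1, 2, …, 2^(2^n)`. -/
def lcmUpTo (n : ℕ) : ℕ := (Finset.Icc 1 (2 ^ 2 ^ n)).lcm id

/-- The group `G_n = (ℤ / L_n ℤ)^n`. -/
abbrev Grp (n : ℕ) : Type := Fin n → ZMod (lcmUpTo n)

/-- The Cayley graph of an abelian group with respect to a symmetric set `S`: distinct `x` and `y`
are adjacent exactly when `y - x ∈ S`. -/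
def cayley {G : Type} [AddCommGroup G] (S : Set G) (hS : ∀ x ∈ S, -x ∈ S) : SimpleGraph G where
  Adj x y := x ≠ y ∧ y - x ∈ S
  symm := ⟨fun x y h => ⟨h.1.symm, by rw [← neg_sub]; exact hS _ h.2⟩⟩
  loopless := ⟨fun _ h => h.1 rfl⟩

lemma lcm_ne_zero (n : ℕ) : lcmUpTo n ≠ 0 := by
  unfold lcmUpTo
  rw [Ne, Finset.lcm_eq_zero_iff]
  rintro ⟨x, hx, h⟩
  rw [Finset.mem_Icc] at hx
  simp only [id] at h
  omega

lemma pow_le_lcm (n : ℕ) : 2 ^ 2 ^ n ≤ lcmUpTo n := by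
  apply Nat.le_of_dvd (Nat.pos_of_ne_zero (lcm_ne_zero n))
  exact Finset.dvd_lcm (f := id) (Finset.mem_Icc.2 ⟨Nat.one_le_two_pow, le_rfl⟩)

/-- There is an absolute constant `C` such that for every `n ≥ 1` the group
`G_n = (ℤ / lcm(1, …, 2^(2^n)) ℤ)^n` has a Cayley graph all of whose cliques and independent sets
have at most `C log₂ |G_n|` elements. -/
theorem result : ∃ C : ℝ, 1 / 2 < C ∧ ∀ n : ℕ, 1 ≤ n →
    ∃ (S : Set (Grp n)) (hS : ∀ x ∈ S, -x ∈ S), 0 ∉ S ∧ ∀ X : Finset (Grp n),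
      ((cayley S hS).IsClique (X : Set (Grp n)) ∨ (cayley S hS).IsIndepSet (X : Set (Grp n))) →
        (X.card : ℝ) ≤ C * Real.logb 2 (Nat.card (Grp n)) := by
  classical
  have hne : ∀ n, NeZero (lcmUpTo n) := fun n => ⟨lcm_ne_zero n⟩
  set C0 : ℝ := ∑ m ∈ Finset.range 60, (Nat.card (Grp m) : ℝ) with hC0
  have hC0nn : 0 ≤ C0 := Finset.sum_nonneg (fun _ _ => Nat.cast_nonneg _)
  refine ⟨1600000000 + C0, by linarith, fun n hn => ?_⟩
  have hcardG : Nat.card (Grp n) = (lcmUpTo n) ^ n := by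
    rw [Nat.card_eq_fintype_card, Fintype.card_fun, ZMod.card, Fintype.card_fin]
  have hLN : 2 ^ 2 ^ n ≤ (lcmUpTo n) ^ n :=
    (pow_le_lcm n).trans (Nat.le_self_pow (by omega) _)
  have hlog : (2 : ℝ) ^ n ≤ Real.logb 2 (Nat.card (Grp n)) := by
    rw [Real.le_logb_iff_rpow_le (by norm_num) (by
      rw [hcardG]
      exact_mod_cast Nat.pos_of_ne_zero (pow_ne_zero n (lcm_ne_zero n)))]
    rw [hcardG]
    have : (2 : ℝ) ^ ((2 : ℝ) ^ n) = ((2 ^ 2 ^ n : ℕ) : ℝ) := by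
      push_cast
      rw [← Real.rpow_natCast 2 (2 ^ n)]
      push_cast
      rfl
    rw [this]
    exact_mod_cast hLN
  have hlog1 : 1 ≤ Real.logb 2 (Nat.card (Grp n)) :=
    le_trans (one_le_pow₀ (by norm_num)) hlog
  rcases Nat.lt_or_ge n 60 with hsmall | hbig
  · refine ⟨∅, by simp, by simp, fun X _ => ?_⟩
    have h1 : (X.card : ℝ) ≤ (Nat.card (Grp n) : ℝ) := by
      rw [Nat.card_eq_fintype_card]
      exact_mod_cast Finset.card_le_univ X
    have h2 : (Nat.card (Grp n) : ℝ) ≤ C0 :=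
      Finset.single_le_sum (f := fun m => (Nat.card (Grp m) : ℝ))
        (fun _ _ => Nat.cast_nonneg _) (Finset.mem_range.2 hsmall)
    nlinarith
  · set L := lcmUpTo n with hL
    set ℓ := Nat.clog 2 (L ^ n) with hℓ
    set l := Nat.clog 2 (100 * ℓ) with hl
    have hNℓ : L ^ n ≤ 2 ^ ℓ := Nat.le_pow_clog (by norm_num) _
    have hℓn : 2 ^ n ≤ ℓ := by
      have h1 := Nat.clog_mono_right 2 hLN
      rwa [Nat.clog_pow 2 _ (by norm_num)] at h1
    have hℓpos : 2 ^ 60 ≤ ℓ := (Nat.pow_le_pow_right (by norm_num) hbig).trans hℓn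
    have htl : 100 * ℓ ≤ 2 ^ l := Nat.le_pow_clog (by norm_num) _
    have hnl : n ≤ l := by
      have h1 := Nat.clog_mono_right 2 (show 2 ^ n ≤ 100 * ℓ by omega)
      rwa [Nat.clog_pow 2 _ (by norm_num)] at h1
    have hl60 : 60 ≤ l := hbig.trans hnl
    have hlt : 10 ^ 6 * l ^ 5 ≤ 100 * ℓ := by
      have h1 := Pool.Agent.N428.Ram.l_bound l hl60
      have h2 : 2 ^ (Nat.clog 2 (100 * ℓ)).pred < 100 * ℓ :=
        Nat.pow_pred_clog_lt_self (by norm_num) (by omega)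
      rw [← hl] at h2
      exact h1.trans h2.le
    have H : ∀ D, 2000 * (100 * ℓ) ≤ D → D ≤ (100 * ℓ) ^ 2 →
        (Finset.univ.filter (fun A : Finset (Grp n) =>
          0 ∈ A ∧ A.card = 100 * ℓ ∧ (A - A).card = D)).card ≤ 2 ^ (D / 4) := by
      intro D hD _
      refine le_trans (Finset.card_le_card ?_)
        (Pool.Agent.N428.Ram.fam_bound n L ℓ l hNℓ hl60 hnl htl hlt D hD)
      intro A hA
      obtain ⟨-, h0, hA1, hA2⟩ := Finset.mem_filter.1 hA
      exact Finset.mem_filter.2 ⟨Finset.mem_univ _, h0, hA1, hA2.le⟩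
    have hnum : 2 * ((100 * ℓ) ^ 2 + 1) < 2 ^ (2000 * (100 * ℓ) / 4) := by
      set t := 100 * ℓ with ht
      have h1 : t < 2 ^ t := Nat.lt_two_pow_self
      have h2 : 2 * (t ^ 2 + 1) ≤ 2 ^ (2 * t + 1) := by
        have h3 : t ^ 2 + 1 ≤ (2 ^ t) ^ 2 := by nlinarith
        calc 2 * (t ^ 2 + 1) ≤ 2 * (2 ^ t) ^ 2 := Nat.mul_le_mul_left _ h3
          _ = 2 ^ (2 * t + 1) := by rw [← pow_mul, pow_succ, mul_comm t 2, mul_comm]
      refine lt_of_le_of_lt h2 (Nat.pow_lt_pow_right (by norm_num) ?_)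
      omega
    obtain ⟨S, h0, hS, hX⟩ := Pool.Agent.N428.Ram.exists_cayley (G := Grp n) (100 * ℓ) 2000
      (by norm_num) (by omega) H hnum
    refine ⟨S, hS, h0, fun X hcl => ?_⟩
    have h1 := hX X (by
      rcases hcl with h | h
      · left
        intro x hx y hy hxy
        exact (h (Finset.mem_coe.2 hx) (Finset.mem_coe.2 hy) hxy).2
      · right
        intro x hx y hy hxy hmem
        exact h (Finset.mem_coe.2 hx) (Finset.mem_coe.2 hy) hxy ⟨hxy, hmem⟩)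
    have h2 : (X.card : ℝ) ≤ 800000000 * ℓ := by
      have : X.card ≤ 800000000 * ℓ := by
        refine h1.trans (le_of_eq ?_)
        ring
      exact_mod_cast this
    have h3 : (ℓ : ℝ) ≤ Real.logb 2 (Nat.card (Grp n)) + 1 := by
      have h4 : 2 ^ (Nat.clog 2 (L ^ n)).pred < L ^ n :=
        Nat.pow_pred_clog_lt_self (by norm_num) (lt_of_lt_of_le (by
          have : 2 ^ 1 ≤ 2 ^ 2 ^ n := Nat.pow_le_pow_right (by norm_num) Nat.one_le_two_pow
          omega) hLN)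
      rw [← hℓ] at h4
      have h5 : (((ℓ.pred : ℕ) : ℝ)) ≤ Real.logb 2 (Nat.card (Grp n)) := by
        rw [Real.le_logb_iff_rpow_le (by norm_num) (by
          rw [hcardG]
          exact_mod_cast Nat.pos_of_ne_zero (pow_ne_zero n (lcm_ne_zero n)))]
        rw [hcardG, Real.rpow_natCast]
        exact_mod_cast h4.le
      have h6 : (ℓ : ℝ) = ((ℓ.pred : ℕ) : ℝ) + 1 := by
        have : ℓ = ℓ.pred + 1 := (Nat.succ_pred_eq_of_pos (by omega)).symm
        exact_mod_cast this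
      linarith
    nlinarith

end Pool.Agent.Results.MP_bf05d5_co.RamseyCayley
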